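import Mathlib

/-! A perfect subset of the line containing all finite patterns which supports no measure with
decaying Fourier transform. -/

open MeasureTheory Set Filter Topology Complex
open scoped Real FourierTransform ContDiff

noncomputable section

namespace Pool.Agent.Results.MP_701998_an.NoRajchmanMeasure

/-! ### The set -/

/-- the right end point of the digit set -/
def ctop (N : ℕ) : ℝ := ((N : ℝ) - 2) / ((N : ℝ) - 1)

/-- the piece: points `x = 2N + ∑ a_k N^{-k}` with digits `0 ≤ a_k ≤ N - 2`. -/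
def piece (N : ℕ) : Set ℝ :=
  {x | 2 * (N : ℝ) ≤ x ∧ x ≤ 2 * (N : ℝ) + ctop N ∧ ∀ k : ℕ, Int.fract ((N : ℝ) ^ k * x) ≤ ctop N}

/-- the set -/
def theSet : Set ℝ := ⋃ n : ℕ, piece (n + 5)

lemma ctop_lt_one {N : ℕ} (hN : 5 ≤ N) : ctop N < 1 := by
  have : (5 : ℝ) ≤ N := by exact_mod_cast hN
  unfold ctop
  rw [div_lt_one (by linarith)]
  linarith

lemma ctop_nonneg {N : ℕ} (hN : 5 ≤ N) : 0 ≤ ctop N := by
  have : (5 : ℝ) ≤ N := by exact_mod_cast hN
  unfold ctop
  exact div_nonneg (by linarith) (by linarith)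

lemma ctop_eq {N : ℕ} (hN : 5 ≤ N) : ((N : ℝ) - 2 + ctop N) / N = ctop N := by
  have : (5 : ℝ) ≤ N := by exact_mod_cast hN
  have h1 : (N : ℝ) - 1 ≠ 0 := by linarith
  have h2 : (N : ℝ) ≠ 0 := by linarith
  unfold ctop
  field_simp
  ring

lemma mul_ctop_lt {N : ℕ} (hN : 5 ≤ N) : (N : ℝ) * ctop N < N - 1 := by
  have h5 : (5 : ℝ) ≤ N := by exact_mod_cast hN
  have h := ctop_eq hN
  have h2 : (N : ℝ) ≠ 0 := by linarith
  rw [div_eq_iff h2] at h
  have := ctop_lt_one hN
  linarith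

lemma lt_mul_ctop {N : ℕ} (hN : 5 ≤ N) : (N : ℝ) - 2 < N * ctop N := by
  have h5 : (5 : ℝ) ≤ N := by exact_mod_cast hN
  have h := ctop_eq hN
  have h2 : (N : ℝ) ≠ 0 := by linarith
  rw [div_eq_iff h2] at h
  have : 0 < ctop N := by
    unfold ctop
    exact div_pos (by linarith) (by linarith)
  linarith

lemma three_div_le_ctop {N : ℕ} (hN : 5 ≤ N) : 3 / (N : ℝ) ≤ ctop N := by
  have h5 : (5 : ℝ) ≤ N := by exact_mod_cast hN
  unfold ctop
  rw [div_le_div_iff₀ (by linarith) (by linarith)]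
  nlinarith

lemma isClosed_fract {c : ℝ} (hc0 : 0 ≤ c) : IsClosed {y : ℝ | Int.fract y ≤ c} := by
  rw [← isOpen_compl_iff, isOpen_iff_mem_nhds]
  intro y hy
  simp only [mem_compl_iff, mem_ofPred_eq, not_le] at hy
  have h1 := Int.floor_add_fract y
  have h2 := Int.fract_lt_one y
  have h3 : Ioo ((⌊y⌋ : ℝ) + c) (⌊y⌋ + 1) ∈ 𝓝 y := Ioo_mem_nhds (by linarith) (by linarith)
  filter_upwards [h3] with z hz
  simp only [mem_compl_iff, mem_ofPred_eq, not_le]
  have h4 : ⌊z⌋ = ⌊y⌋ := by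
    rw [Int.floor_eq_iff]
    exact ⟨by linarith [hz.1], hz.2⟩
  have h5 := Int.floor_add_fract z
  rw [h4] at h5
  linarith [hz.1]

lemma isClosed_piece {N : ℕ} (hN : 5 ≤ N) : IsClosed (piece N) := by
  have e : piece N = Icc (2 * (N : ℝ)) (2 * (N : ℝ) + ctop N) ∩
      ⋂ k : ℕ, (fun x : ℝ => (N : ℝ) ^ k * x) ⁻¹' {y : ℝ | Int.fract y ≤ ctop N} := by
    ext x
    simp only [piece, mem_ofPred_eq, mem_inter_iff, mem_Icc, mem_iInter, mem_preimage]
    tauto
  rw [e]
  exact isClosed_Icc.inter (isClosed_iInter fun k =>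
    (isClosed_fract (ctop_nonneg hN)).preimage (continuous_const.mul continuous_id))

lemma isClosed_theSet : IsClosed theSet := by
  apply LocallyFinite.isClosed_iUnion
  · intro x
    refine ⟨Ioo (x - 1) (x + 1), Ioo_mem_nhds (by linarith) (by linarith), ?_⟩
    apply Set.Finite.subset (Set.finite_Iic (⌈x⌉₊ + 1))
    intro n hn
    obtain ⟨y, hy1, hy2⟩ := hn
    have h1 := hy1.1
    have h2 := hy2.2
    have h3 := Nat.le_ceil x
    have h4 : ((n : ℝ)) < (⌈x⌉₊ : ℝ) + 1 := by
      push_cast at h1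
      linarith [Nat.cast_nonneg (α := ℝ) n]
    have h5 : n < ⌈x⌉₊ + 1 := by exact_mod_cast h4
    exact h5.le
  · intro n
    exact isClosed_piece (by omega)

lemma digit {N : ℕ} (hN : 5 ≤ N) {x : ℝ} (hx : ∀ k : ℕ, Int.fract ((N : ℝ) ^ k * x) ≤ ctop N)
    (j : ℕ) : ∃ d : ℤ, 0 ≤ d ∧ d ≤ (N : ℤ) - 2 ∧
      Int.fract ((N : ℝ) ^ j * x) = (d + Int.fract ((N : ℝ) ^ (j + 1) * x)) / N := by
  have h5 : (5 : ℝ) ≤ N := by exact_mod_cast hN
  set f := Int.fract ((N : ℝ) ^ j * x) with hf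
  have hf0 : 0 ≤ f := Int.fract_nonneg _
  have e1 : (N : ℝ) ^ (j + 1) * x = N * f + ((N * ⌊(N : ℝ) ^ j * x⌋ : ℤ) : ℝ) := by
    have := Int.floor_add_fract ((N : ℝ) ^ j * x)
    push_cast
    rw [pow_succ]
    linear_combination (-(N : ℝ)) * this
  refine ⟨⌊(N : ℝ) * f⌋, Int.floor_nonneg.2 (by positivity), ?_, ?_⟩
  · have h1 : (N : ℝ) * f ≤ N * ctop N := by gcongr; exact hx j
    have h2 := mul_ctop_lt hN
    have h3 : ⌊(N : ℝ) * f⌋ < (N : ℤ) - 1 := by
      rw [Int.floor_lt]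
      push_cast
      linarith
    omega
  · rw [e1, Int.fract_add_intCast]
    have := Int.floor_add_fract ((N : ℝ) * f)
    rw [this]
    field_simp

lemma exists_near {N : ℕ} (hN : 5 ≤ N) {x : ℝ} (hx : x ∈ piece N) (i : ℕ) :
    ∃ x' ∈ piece N, x' ≠ x ∧ |x' - x| ≤ 1 / (N : ℝ) ^ (i + 1) := by
  have h5 : (5 : ℝ) ≤ N := by exact_mod_cast hN
  have hN0 : (0 : ℝ) < N := by linarith
  obtain ⟨hx1, hx2, hx3⟩ := hx
  set k := i + 1 with hk
  obtain ⟨d, hd0, hd1, hd⟩ := digit hN hx3 i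
  obtain ⟨δ, hδ, hδd0, hδd1⟩ : ∃ δ : ℤ, |δ| = 1 ∧ 0 ≤ d + δ ∧ d + δ ≤ (N : ℤ) - 2 := by
    by_cases h : d < (N : ℤ) - 2
    · exact ⟨1, by norm_num, by omega, by omega⟩
    · exact ⟨-1, by norm_num, by omega, by omega⟩
  have hNk : (0 : ℝ) < (N : ℝ) ^ k := by positivity
  -- the main claim
  have key : ∀ l j : ℕ, j + l + 1 = k →
      0 ≤ Int.fract ((N : ℝ) ^ j * x) + δ * (N : ℝ) ^ j / (N : ℝ) ^ k ∧
      Int.fract ((N : ℝ) ^ j * x) + δ * (N : ℝ) ^ j / (N : ℝ) ^ k ≤ ctop N := by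
    intro l
    induction l with
    | zero =>
      intro j hj
      have hji : j = i := by omega
      subst hji
      have e : (δ : ℝ) * (N : ℝ) ^ j / (N : ℝ) ^ k = δ / N := by
        rw [hk, pow_succ]
        field_simp
      rw [e, hd, ← add_div]
      have hf0 := Int.fract_nonneg ((N : ℝ) ^ (j + 1) * x)
      have hf1 := hx3 (j + 1)
      have a1 : (0 : ℝ) ≤ d + δ := by exact_mod_cast hδd0
      have a2 : (d : ℝ) + δ ≤ N - 2 := by exact_mod_cast hδd1
      constructor
      · apply div_nonneg _ hN0.le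
        linarith
      · refine le_trans ((div_le_div_iff_of_pos_right hN0).2 ?_) (ctop_eq hN).le
        linarith
    | succ l ih =>
      intro j hj
      obtain ⟨b1, b2⟩ := ih (j + 1) (by omega)
      obtain ⟨e, he0, he1, he⟩ := digit hN hx3 j
      have e3 : (δ : ℝ) * (N : ℝ) ^ j / (N : ℝ) ^ k =
          (δ * (N : ℝ) ^ (j + 1) / (N : ℝ) ^ k) / N := by
        rw [pow_succ (N : ℝ) j]
        field_simp
      rw [e3, he, ← add_div]
      have a1 : (0 : ℝ) ≤ e := by exact_mod_cast he0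
      have a2 : (e : ℝ) ≤ N - 2 := by exact_mod_cast he1
      constructor
      · apply div_nonneg _ hN0.le
        linarith
      · refine le_trans ((div_le_div_iff_of_pos_right hN0).2 ?_) (ctop_eq hN).le
        linarith
  have hfl : ⌊x⌋ = 2 * (N : ℤ) := by
    rw [Int.floor_eq_iff]
    push_cast
    exact ⟨hx1, by linarith [ctop_lt_one hN]⟩
  have hfr : Int.fract x = x - 2 * N := by
    have := Int.floor_add_fract x
    rw [hfl] at this
    push_cast at this
    linarith
  refine ⟨x + δ / (N : ℝ) ^ k, ⟨?_, ?_, ?_⟩, ?_, ?_⟩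
  · have := (key i 0 (by omega)).1
    rw [pow_zero, one_mul, mul_one, hfr] at this
    linarith
  · have := (key i 0 (by omega)).2
    rw [pow_zero, one_mul, mul_one, hfr] at this
    linarith
  · intro j
    by_cases hj : j < k
    · obtain ⟨b1, b2⟩ := key (k - 1 - j) j (by omega)
      have e1 : (N : ℝ) ^ j * (x + δ / (N : ℝ) ^ k) =
          (⌊(N : ℝ) ^ j * x⌋ : ℝ) + (Int.fract ((N : ℝ) ^ j * x) + δ * (N : ℝ) ^ j / (N : ℝ) ^ k) := by
        have := Int.floor_add_fract ((N : ℝ) ^ j * x)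
        rw [← add_assoc, this]
        ring
      have e2 : Int.fract ((N : ℝ) ^ j * (x + δ / (N : ℝ) ^ k)) =
          Int.fract ((N : ℝ) ^ j * x) + δ * (N : ℝ) ^ j / (N : ℝ) ^ k := by
        rw [e1, Int.fract_intCast_add, Int.fract_eq_self]
        exact ⟨b1, b2.trans_lt (ctop_lt_one hN)⟩
      rw [e2]
      exact b2
    · obtain ⟨l, hl⟩ : ∃ l, j = k + l := ⟨j - k, by omega⟩
      have e1 : (N : ℝ) ^ j * (x + δ / (N : ℝ) ^ k) =
          (N : ℝ) ^ j * x + ((δ * (N : ℤ) ^ l : ℤ) : ℝ) := by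
        rw [hl, pow_add]
        push_cast
        field_simp
      rw [e1, Int.fract_add_intCast]
      exact hx3 j
  · intro h
    have h1 : (δ : ℝ) / (N : ℝ) ^ k = 0 := by linarith
    rw [div_eq_zero_iff] at h1
    rcases h1 with h1 | h1
    · have : δ = 0 := by exact_mod_cast h1
      rw [this] at hδ
      norm_num at hδ
    · exact hNk.ne' h1
  · rw [add_sub_cancel_left, abs_div, abs_of_pos hNk]
    have : |(δ : ℝ)| = 1 := by exact_mod_cast hδ
    rw [this]

lemma perfect_theSet : Perfect theSet := by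
  refine ⟨isClosed_theSet, ?_⟩
  intro x hx
  rw [accPt_iff_nhds]
  intro U hU
  obtain ⟨n, hn⟩ := mem_iUnion.1 hx
  obtain ⟨ε, hε, hball⟩ := Metric.mem_nhds_iff.1 hU
  have h5 : (5 : ℝ) ≤ ((n + 5 : ℕ) : ℝ) := by
    push_cast
    linarith [Nat.cast_nonneg (α := ℝ) n]
  obtain ⟨i, hi⟩ := exists_pow_lt_of_lt_one hε (show 1 / ((n + 5 : ℕ) : ℝ) < 1 by
    rw [div_lt_one (by linarith)]
    linarith)
  obtain ⟨x', hx', hne, hd⟩ := exists_near (by omega) hn i
  refine ⟨x', ⟨hball ?_, mem_iUnion.2 ⟨n, hx'⟩⟩, hne⟩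
  rw [Metric.mem_ball, Real.dist_eq]
  refine hd.trans_lt (lt_of_le_of_lt ?_ hi)
  rw [one_div_pow]
  apply one_div_le_one_div_of_le (by positivity)
  exact pow_le_pow_right₀ (by linarith) (by omega)

/-! ### Patterns -/

lemma exists_residue (N : ℕ) (F : Finset ℝ) (v : ℝ → ℤ) (hF : 3 * F.card < N) :
    ∃ r : ℕ, r < N ∧ ∀ f ∈ F, ∀ s : ℤ, 1 ≤ s → s ≤ 3 → ¬ ((N : ℤ) ∣ r + s + v f) := by
  have : NeZero N := ⟨by omega⟩
  set B : Finset (ZMod N) := (F ×ˢ (Finset.Icc (1 : ℤ) 3)).image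
    (fun p => ((-(p.2 + v p.1) : ℤ) : ZMod N)) with hB
  have hcard : B.card < Fintype.card (ZMod N) := by
    rw [ZMod.card]
    refine lt_of_le_of_lt Finset.card_image_le ?_
    rw [Finset.card_product]
    simp
    omega
  obtain ⟨z, -, hz⟩ : ∃ z ∈ (Finset.univ : Finset (ZMod N)), z ∉ B :=
    Finset.exists_mem_notMem_of_card_lt_card (by rwa [Finset.card_univ])
  refine ⟨z.val, ZMod.val_lt z, ?_⟩
  intro f hf s hs1 hs3 hdvd
  apply hz
  rw [hB, Finset.mem_image]
  refine ⟨(f, s), Finset.mem_product.2 ⟨hf, Finset.mem_Icc.2 ⟨hs1, hs3⟩⟩, ?_⟩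
  have h1 := (ZMod.intCast_zmod_eq_zero_iff_dvd _ N).2 hdvd
  push_cast at h1
  rw [ZMod.natCast_zmod_val] at h1
  push_cast
  linear_combination (-1 : ZMod N) * h1

lemma step {N : ℕ} (hN : 5 ≤ N) (F : Finset ℝ) (hF : 3 * F.card < N) (b : ℝ) (k : ℕ) (t : ℝ) :
    ∃ t' : ℝ, t ≤ t' ∧ t' + 1 / (N : ℝ) ^ (k + 1) ≤ t + 1 / (N : ℝ) ^ k ∧
      ∀ a, t' ≤ a → a ≤ t' + 1 / (N : ℝ) ^ (k + 1) → ∀ f ∈ F,
        Int.fract ((N : ℝ) ^ k * (a + b * f)) ≤ ctop N := by
  have h5 : (5 : ℝ) ≤ N := by exact_mod_cast hN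
  have hN0 : (0 : ℝ) < N := by linarith
  obtain ⟨r, hrN, hr⟩ := exists_residue N F (fun f => ⌊(N : ℝ) ^ (k + 1) * (t + b * f)⌋) hF
  have hrN' : (r : ℝ) + 1 ≤ N := by exact_mod_cast hrN
  have hNk : (0 : ℝ) < (N : ℝ) ^ (k + 1) := by positivity
  refine ⟨t + r / (N : ℝ) ^ (k + 1), ?_, ?_, ?_⟩
  · have : (0 : ℝ) ≤ r / (N : ℝ) ^ (k + 1) := by positivity
    linarith
  · have : (r : ℝ) / (N : ℝ) ^ (k + 1) + 1 / (N : ℝ) ^ (k + 1) ≤ 1 / (N : ℝ) ^ k := by
      rw [← add_div, div_le_div_iff₀ hNk (by positivity), pow_succ]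
      nlinarith [pow_pos hN0 k]
    linarith
  · intro a ha1 ha2 f hf
    by_contra hcon
    push Not at hcon
    set y := (N : ℝ) ^ k * (a + b * f) with hy
    set v := ⌊(N : ℝ) ^ (k + 1) * (t + b * f)⌋ with hv
    have hv1 : (v : ℝ) ≤ (N : ℝ) ^ (k + 1) * (t + b * f) := Int.floor_le _
    have hv2 : (N : ℝ) ^ (k + 1) * (t + b * f) < v + 1 := Int.lt_floor_add_one _
    have e1 : (N : ℝ) * y = (N : ℝ) ^ (k + 1) * (t + b * f) + (N : ℝ) ^ (k + 1) * (a - t) := by
      rw [hy, pow_succ]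
      ring
    have g1 : (r : ℝ) ≤ (N : ℝ) ^ (k + 1) * (a - t) := by
      have : (r : ℝ) / (N : ℝ) ^ (k + 1) ≤ a - t := by linarith
      rwa [div_le_iff₀' hNk] at this
    have g2 : (N : ℝ) ^ (k + 1) * (a - t) ≤ r + 1 := by
      have : a - t ≤ ((r : ℝ) + 1) / (N : ℝ) ^ (k + 1) := by
        rw [add_div]
        linarith
      rwa [le_div_iff₀' hNk] at this
    have hfl := Int.floor_add_fract y
    have hf1 := Int.fract_lt_one y
    have h2 : (N : ℝ) - 2 < N * Int.fract y := (lt_mul_ctop hN).trans (by gcongr)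
    have h3 : (N : ℝ) * Int.fract y < N := by
      calc (N : ℝ) * Int.fract y < N * 1 := by gcongr
        _ = N := mul_one _
    have e2 : (N : ℝ) * y = N * ⌊y⌋ + N * Int.fract y := by
      rw [← mul_add, hfl]
    have i1 : ((v + r : ℤ) : ℝ) < ((N * ⌊y⌋ + N : ℤ) : ℝ) := by
      push_cast
      linarith
    have i2 : ((N * ⌊y⌋ + N - 2 : ℤ) : ℝ) < ((v + r + 2 : ℤ) : ℝ) := by
      push_cast
      linarith
    have i1' : v + r < N * ⌊y⌋ + N := by exact_mod_cast i1
    have i2' : N * ⌊y⌋ + N - 2 < v + r + 2 := by exact_mod_cast i2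
    have hs := hr f hf (N * ⌊y⌋ + N - (v + r)) (by omega) (by omega)
    apply hs
    refine ⟨⌊y⌋ + 1, ?_⟩
    ring

lemma pattern (F : Finset ℝ) : ∃ a b : ℝ, b ≠ 0 ∧ ∀ f ∈ F, a + b * f ∈ theSet := by
  set N : ℕ := 3 * F.card + 5 with hNd
  have hN : 5 ≤ N := by omega
  have hF : 3 * F.card < N := by omega
  have h5 : (5 : ℝ) ≤ N := by exact_mod_cast hN
  have hN0 : (0 : ℝ) < N := by linarith
  obtain ⟨M, hM0, hM⟩ : ∃ M : ℝ, 0 < M ∧ ∀ f ∈ F, |f| ≤ M := by
    refine ⟨1 + ∑ f ∈ F, |f|, ?_, ?_⟩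
    · have : 0 ≤ ∑ f ∈ F, |f| := Finset.sum_nonneg fun _ _ => abs_nonneg _
      linarith
    · intro f hf
      have := Finset.single_le_sum (f := fun f : ℝ => |f|) (fun _ _ => abs_nonneg _) hf
      linarith
  set b : ℝ := 1 / (N * M) with hb
  have hb0 : 0 < b := by positivity
  have hbf : ∀ f ∈ F, |b * f| ≤ 1 / N := by
    intro f hf
    rw [abs_mul, abs_of_pos hb0, hb]
    calc 1 / (N * M) * |f| ≤ 1 / (N * M) * M := by gcongr; exact hM f hf
      _ = 1 / N := by field_simp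
  choose nxt hn1 hn2 hn3 using fun (k : ℕ) (t : ℝ) => step hN F hF b k t
  -- the left end points
  set c : ℕ → ℝ := fun n => Nat.rec (2 * (N : ℝ) + 1 / N) (fun n t => nxt (n + 1) t) n with hc
  have hc0 : c 0 = 2 * (N : ℝ) + 1 / N := rfl
  have hcs : ∀ n, c (n + 1) = nxt (n + 1) (c n) := fun n => rfl
  have hanti : Antitone fun n => Icc (c n) (c n + 1 / (N : ℝ) ^ (n + 1)) := by
    apply antitone_nat_of_succ_le
    intro n
    apply Icc_subset_Icc
    · rw [hcs]
      exact hn1 _ _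
    · rw [hcs]
      exact hn2 _ _
  have hmem := ciSup_mem_iInter_Icc_of_antitone_Icc hanti
    (fun n => by have : 0 ≤ 1 / (N : ℝ) ^ (n + 1) := by positivity
                 linarith)
  set a := ⨆ n, c n with ha
  rw [mem_iInter] at hmem
  refine ⟨a, b, hb0.ne', ?_⟩
  intro f hf
  refine mem_iUnion.2 ⟨3 * F.card, ?_⟩
  have h0 := hmem 0
  rw [hc0, zero_add, pow_one] at h0
  have hbf' := abs_le.1 (hbf f hf)
  have hct := three_div_le_ctop hN
  have e3 : 3 / (N : ℝ) = 1 / N + 1 / N + 1 / N := by ring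
  have hx1 : 2 * (N : ℝ) ≤ a + b * f := by linarith [h0.1, hbf'.1]
  have hx2 : a + b * f ≤ 2 * (N : ℝ) + ctop N := by linarith [h0.2, hbf'.2]
  refine ⟨hx1, hx2, ?_⟩
  intro k
  rcases Nat.eq_zero_or_pos k with hk | hk
  · subst hk
    rw [pow_zero, one_mul]
    have hfl : ⌊a + b * f⌋ = 2 * (N : ℤ) := by
      rw [Int.floor_eq_iff]
      push_cast
      exact ⟨hx1, by linarith [ctop_lt_one hN]⟩
    have := Int.floor_add_fract (a + b * f)
    rw [hfl] at this
    push_cast at this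
    linarith
  · obtain ⟨j, hj⟩ : ∃ j, k = j + 1 := ⟨k - 1, by omega⟩
    subst hj
    have hm := hmem (j + 1)
    rw [hcs] at hm
    exact hn3 (j + 1) (c j) a hm.1 hm.2 f hf

/-! ### No Rajchman measures -/

/-- The Fourier transform of a measure. -/
def hat (μ : Measure ℝ) (ξ : ℝ) : ℂ := ∫ x, Complex.exp (-(2 * π * x * ξ : ℝ) * Complex.I) ∂μ

lemma norm_e (t : ℝ) : ‖Complex.exp ((t : ℂ) * Complex.I)‖ = 1 := Complex.norm_exp_ofReal_mul_I t

lemma exists_bump (c : ℝ) : ∃ S : SchwartzMap ℝ ℂ,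
    (∀ x, |x - c| ≤ 1 / 2 → S x = 1) ∧ (∀ x, 3 / 2 ≤ |x - c| → S x = 0) := by
  let B : ContDiffBump c := ⟨1 / 2, 3 / 2, by norm_num, by norm_num⟩
  have hcd : ContDiff ℝ ∞ (fun x => ((B x : ℝ) : ℂ)) :=
    Complex.ofRealCLM.contDiff.comp B.contDiff
  have hcs : HasCompactSupport (fun x => ((B x : ℝ) : ℂ)) :=
    B.hasCompactSupport.comp_left Complex.ofReal_zero
  refine ⟨hcs.toSchwartzMap hcd, ?_, ?_⟩
  · intro x hx
    rw [HasCompactSupport.toSchwartzMap_toFun,
      B.one_of_mem_closedBall (by rw [Metric.mem_closedBall, Real.dist_eq]; exact hx)]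
    simp
  · intro x hx
    rw [HasCompactSupport.toSchwartzMap_toFun,
      B.zero_of_le_dist (by rw [Real.dist_eq]; exact hx)]
    simp

/-- A smooth cut-off written as a Fourier integral. -/
lemma exists_cutoff (c : ℝ) : ∃ g φ : ℝ → ℂ, Integrable g ∧ Continuous g ∧
    (∀ x, φ x = ∫ η, g η * Complex.exp ((2 * π * η * x : ℝ) * Complex.I)) ∧
    (∀ x, |x - c| ≤ 1 / 2 → φ x = 1) ∧ (∀ x, 3 / 2 ≤ |x - c| → φ x = 0) := by
  obtain ⟨S, hS1, hS0⟩ := exists_bump c
  have hint : Integrable (𝓕 (S : ℝ → ℂ)) := by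
    rw [← SchwartzMap.fourier_coe]
    exact (𝓕 S).integrable
  refine ⟨𝓕 (S : ℝ → ℂ), S, hint, ?_, ?_, hS1, hS0⟩
  · rw [← SchwartzMap.fourier_coe]
    exact (𝓕 S).continuous
  · intro x
    have h1 := S.continuous.fourierInv_fourier_eq S.integrable hint
    have h2 := congrFun h1 x
    rw [← h2, Real.fourierInv_eq']
    apply integral_congr_ae
    filter_upwards with η
    rw [smul_eq_mul, mul_comm]
    congr 3
    simp
    ring

lemma cutoff_decay (μ : Measure ℝ) [IsFiniteMeasure μ]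
    (h : Tendsto (hat μ) (cocompact ℝ) (𝓝 0)) (g φ : ℝ → ℂ) (hg : Integrable g)
    (hgc : Continuous g)
    (hφ : ∀ x, φ x = ∫ η, g η * Complex.exp ((2 * π * η * x : ℝ) * Complex.I))
    (s : ℕ → ℝ) (hs : Tendsto s atTop (cocompact ℝ)) :
    Tendsto (fun k => ∫ x, φ x * Complex.exp (-(2 * π * x * s k : ℝ) * Complex.I) ∂μ) atTop
      (𝓝 0) := by
  have e : ∀ ξ : ℝ, ∫ x, φ x * Complex.exp (-(2 * π * x * ξ : ℝ) * Complex.I) ∂μ =
      ∫ η, g η * hat μ (ξ - η) := by
    intro ξ
    have h1 : ∀ x, φ x * Complex.exp (-(2 * π * x * ξ : ℝ) * Complex.I) =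
        ∫ η, g η * Complex.exp (-(2 * π * x * (ξ - η) : ℝ) * Complex.I) := by
      intro x
      rw [hφ, ← integral_mul_const]
      apply integral_congr_ae
      filter_upwards with η
      rw [mul_assoc, ← Complex.exp_add]
      congr 2
      push_cast
      ring
    simp_rw [h1]
    rw [integral_integral_swap]
    · apply integral_congr_ae
      filter_upwards with η
      unfold hat
      rw [← integral_const_mul]
    · have h2 : Integrable (fun p : ℝ × ℝ => g p.2) (μ.prod volume) := hg.comp_snd μ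
      refine h2.mono ?_ ?_
      · apply Continuous.aestronglyMeasurable
        simp only [Function.uncurry_def]
        fun_prop
      · filter_upwards with p
        simp only [Function.uncurry]
        rw [norm_mul]
        have : ‖Complex.exp (-((2 * π * p.1 * (ξ - p.2) : ℝ) : ℂ) * Complex.I)‖ = 1 := by
          rw [← Complex.ofReal_neg]
          exact norm_e _
        rw [this, mul_one]
  simp_rw [e]
  have hb : ∀ ξ, ‖hat μ ξ‖ ≤ μ.real univ := by
    intro ξ
    unfold hat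
    refine (norm_integral_le_of_norm_le_const (C := 1) ?_).trans (by simp)
    filter_upwards with x
    rw [← Complex.ofReal_neg]
    exact (norm_e _).le
  have hhc : Continuous (hat μ) := by
    unfold hat
    apply continuous_of_dominated (bound := fun _ => (1 : ℝ))
    · intro ξ
      apply Continuous.aestronglyMeasurable
      fun_prop
    · intro ξ
      filter_upwards with x
      rw [← Complex.ofReal_neg]
      exact (norm_e _).le
    · exact integrable_const 1
    · filter_upwards with x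
      fun_prop
  have hlim := tendsto_integral_of_dominated_convergence (μ := volume)
    (F := fun k η => g η * hat μ (s k - η)) (f := fun _ => (0 : ℂ))
    (fun η => ‖g η‖ * μ.real univ) ?_ ?_ ?_ ?_
  · simpa using hlim
  · intro k
    apply Continuous.aestronglyMeasurable
    fun_prop
  · exact hg.norm.mul_const _
  · intro k
    filter_upwards with η
    rw [norm_mul]
    gcongr
    exact hb _
  · filter_upwards with η
    have h3 : Tendsto (fun k => s k - η) atTop (cocompact ℝ) := by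
      have := (Homeomorph.subRight η).isClosedEmbedding.tendsto_cocompact
      exact this.comp hs
    have := (h.comp h3).const_mul (g η)
    rw [mul_zero] at this
    exact this

/-- cosine square expansion -/
lemma cos_expand (M : ℕ) (y : ℝ) :
    (((Real.cos (π * y) ^ 2) ^ M : ℝ) : ℂ) =
      ∑ i ∈ Finset.range (2 * M + 1), (((2 * M).choose i : ℝ) / 4 ^ M : ℂ) *
        Complex.exp (((2 * π * ((i : ℝ) - M) * y : ℝ) : ℂ) * Complex.I) := by
  set z := Complex.exp ((π * y : ℝ) * Complex.I) with hz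
  set w := Complex.exp (-((π * y : ℝ) : ℂ) * Complex.I) with hw
  have hcos : ((Real.cos (π * y) : ℝ) : ℂ) = (z + w) / 2 := by
    rw [Complex.ofReal_cos, Complex.cos]
  have h1 : (((Real.cos (π * y) ^ 2) ^ M : ℝ) : ℂ) = (z + w) ^ (2 * M) / 4 ^ M := by
    rw [Complex.ofReal_pow, Complex.ofReal_pow, hcos, ← pow_mul, div_pow, pow_mul (2 : ℂ) 2 M]
    norm_num
  rw [h1, add_pow, Finset.sum_div]
  apply Finset.sum_congr rfl
  intro i hi
  have hi' : i ≤ 2 * M := by
    have := Finset.mem_range.1 hi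
    omega
  have e1 : z ^ i * w ^ (2 * M - i) =
      Complex.exp (((2 * π * ((i : ℝ) - M) * y : ℝ) : ℂ) * Complex.I) := by
    rw [hz, hw, ← Complex.exp_nat_mul, ← Complex.exp_nat_mul, ← Complex.exp_add]
    congr 1
    rw [Nat.cast_sub hi']
    push_cast
    ring
  rw [e1]
  push_cast
  ring

lemma no_decay {N : ℕ} (hN : 5 ≤ N) (ν : Measure ℝ) [IsFiniteMeasure ν]
    (hν : ∀ᵐ x ∂ν, x ∈ piece N) (hpos : ν ≠ 0)
    (h : ∀ j : ℤ, j ≠ 0 → Tendsto (fun k : ℕ => ∫ x, Complex.exp
      (((2 * π * j * ((N : ℝ) ^ k * x) : ℝ) : ℂ) * Complex.I) ∂ν) atTop (𝓝 0)) : False := by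
  have h5 : (5 : ℝ) ≤ N := by exact_mod_cast hN
  set m : ℝ := ν.real univ with hm
  have hm0 : 0 < m := by
    exact ENNReal.toReal_pos (Measure.measure_univ_pos.2 hpos).ne' (measure_ne_top _ _)
  set c := ctop N with hc
  have hc0 : 0 ≤ c := ctop_nonneg hN
  have hc1 : c < 1 := ctop_lt_one hN
  set θ : ℝ := (c + 1) / 2 with hθ
  set α : ℝ := π * ((1 - c) / 2) with hα
  have hπ := Real.pi_pos
  have hα0 : 0 < α := by
    rw [hα]
    apply mul_pos hπ
    linarith
  have hα1 : α ≤ π / 2 := by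
    rw [hα]
    nlinarith
  set ρ : ℝ := Real.cos α ^ 2 with hρ
  have hcα0 : 0 ≤ Real.cos α := Real.cos_nonneg_of_neg_pi_div_two_le_of_le (by linarith) hα1
  have hcα1 : Real.cos α < 1 := by
    have := Real.cos_lt_cos_of_nonneg_of_le_pi (x := 0) (y := α) le_rfl (by linarith) hα0
    rwa [Real.cos_zero] at this
  have hρ0 : 0 ≤ ρ := sq_nonneg _
  have hρ1 : ρ < 1 := by
    rw [hρ]
    nlinarith
  -- pointwise bound
  have hpt : ∀ x ∈ piece N, ∀ k : ℕ, Real.cos (π * ((N : ℝ) ^ k * x - θ)) ^ 2 ≤ ρ := by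
    intro x hx k
    have hf := hx.2.2 k
    have hf0 := Int.fract_nonneg ((N : ℝ) ^ k * x)
    have hfl := Int.floor_add_fract ((N : ℝ) ^ k * x)
    set q := ⌊(N : ℝ) ^ k * x⌋
    set f := Int.fract ((N : ℝ) ^ k * x)
    have e1 : π * ((N : ℝ) ^ k * x - θ) = -(π * (θ - f)) + q * π := by
      rw [← hfl]
      ring
    rw [e1, Real.cos_add_int_mul_pi, mul_pow, Real.cos_neg]
    have e2 : (((-1 : ℝ)) ^ q) ^ 2 = 1 := by
      rw [← zpow_natCast, ← zpow_mul, mul_comm, zpow_mul]
      norm_num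
    rw [e2, one_mul, hρ]
    apply sq_le_sq'
    · rw [← Real.cos_pi_sub]
      apply Real.cos_le_cos_of_nonneg_of_le_pi
      · apply mul_nonneg hπ.le
        rw [hθ]
        linarith
      · linarith
      · rw [hα, hθ]
        nlinarith
    · apply Real.cos_le_cos_of_nonneg_of_le_pi hα0.le
      · rw [hθ]
        nlinarith
      · rw [hα, hθ]
        nlinarith
  -- the limit
  have hmain : ∀ M : ℕ, (M.centralBinom : ℝ) / 4 ^ M ≤ ρ ^ M := by
    intro M
    set L : ℕ → ℂ := fun k => ∫ x, (((Real.cos (π * ((N : ℝ) ^ k * x - θ)) ^ 2) ^ M : ℝ) : ℂ) ∂ν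
      with hL
    have hLb : ∀ k, ‖L k‖ ≤ ρ ^ M * m := by
      intro k
      rw [hL, hm]
      apply norm_integral_le_of_norm_le_const
      filter_upwards [hν] with x hx
      rw [Complex.norm_real, Real.norm_eq_abs, abs_of_nonneg (by positivity)]
      exact pow_le_pow_left₀ (sq_nonneg _) (hpt x hx k) M
    have hLlim : Tendsto L atTop (𝓝 ((((M.centralBinom : ℝ) / 4 ^ M * m : ℝ)) : ℂ)) := by
      have e1 : ∀ k, L k = ∑ i ∈ Finset.range (2 * M + 1), ((((2 * M).choose i : ℝ) / 4 ^ M : ℂ) *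
          Complex.exp (((2 * π * ((i : ℝ) - M) * (-θ) : ℝ) : ℂ) * Complex.I)) *
          ∫ x, Complex.exp (((2 * π * ((i : ℤ) - (M : ℤ) : ℤ) * ((N : ℝ) ^ k * x) : ℝ) : ℂ) *
            Complex.I) ∂ν := by
        intro k
        rw [hL]
        simp only
        simp_rw [cos_expand]
        rw [integral_finsetSum]
        · apply Finset.sum_congr rfl
          intro i _
          rw [← integral_const_mul]
          apply integral_congr_ae
          filter_upwards with x
          have e4 : Complex.exp (((2 * π * ((i : ℝ) - M) * ((N : ℝ) ^ k * x - θ) : ℝ) : ℂ) *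
              Complex.I) = Complex.exp (((2 * π * ((i : ℝ) - M) * (-θ) : ℝ) : ℂ) * Complex.I) *
              Complex.exp (((2 * π * ((i : ℤ) - (M : ℤ) : ℤ) * ((N : ℝ) ^ k * x) : ℝ) : ℂ) *
                Complex.I) := by
            rw [← Complex.exp_add]
            congr 1
            push_cast
            ring
          rw [e4]
          ring
        · intro i _
          apply Integrable.const_mul
          refine Integrable.of_bound (Continuous.aestronglyMeasurable (by fun_prop)) 1 ?_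
          filter_upwards with x
          exact (norm_e _).le
      have e2 : (((M.centralBinom : ℝ) / 4 ^ M * m : ℝ) : ℂ) =
          ∑ i ∈ Finset.range (2 * M + 1), ((((2 * M).choose i : ℝ) / 4 ^ M : ℂ) *
          Complex.exp (((2 * π * ((i : ℝ) - M) * (-θ) : ℝ) : ℂ) * Complex.I)) *
            (if i = M then (m : ℂ) else 0) := by
        rw [Finset.sum_eq_single M]
        · rw [if_pos rfl, sub_self, mul_zero, zero_mul, Complex.ofReal_zero, zero_mul,
            Complex.exp_zero, mul_one, Nat.centralBinom]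
          push_cast
          ring
        · intro i _ hi
          rw [if_neg hi, mul_zero]
        · intro hM
          exact absurd (Finset.mem_range.2 (by omega)) hM
      rw [e2]
      have e3 : L = fun k => L k := rfl
      rw [e3]
      simp_rw [e1]
      apply tendsto_finsetSum
      intro i _
      apply Tendsto.const_mul
      by_cases hi : i = M
      · subst hi
        rw [if_pos rfl]
        have : ∀ k : ℕ, ∫ x, Complex.exp (((2 * π * ((i : ℤ) - (i : ℤ) : ℤ) *
            ((N : ℝ) ^ k * x) : ℝ) : ℂ) * Complex.I) ∂ν = (m : ℂ) := by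
          intro k
          simp [hm]
        simp_rw [this]
        exact tendsto_const_nhds
      · rw [if_neg hi]
        apply h
        intro h0
        apply hi
        omega
    have h1 := le_of_tendsto hLlim.norm (Eventually.of_forall hLb)
    rw [Complex.norm_real, Real.norm_eq_abs, abs_of_nonneg (by positivity)] at h1
    exact le_of_mul_le_mul_right h1 hm0
  -- contradiction
  have hlim := tendsto_self_mul_const_pow_of_lt_one hρ0 hρ1
  have h2 : Tendsto (fun M : ℕ => 2 * ((M : ℝ) * ρ ^ M)) atTop (𝓝 0) := by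
    simpa using hlim.const_mul 2
  obtain ⟨M, hM⟩ := ((h2.eventually (gt_mem_nhds (show (0 : ℝ) < 1 by norm_num))).and
    (eventually_gt_atTop 0)).exists
  have h3 := hmain M
  have h4 := Nat.four_pow_le_two_mul_self_mul_centralBinom M hM.2
  have h4' : (4 : ℝ) ^ M ≤ 2 * M * M.centralBinom := by exact_mod_cast h4
  rw [div_le_iff₀ (by positivity)] at h3
  have hM0 : (0 : ℝ) < M := by exact_mod_cast hM.2
  have h6 : (4 : ℝ) ^ M ≤ 2 * M * (ρ ^ M * 4 ^ M) := h4'.trans (by gcongr)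
  have h7 : (1 : ℝ) ≤ 2 * (M * ρ ^ M) := by
    have h8 : (0 : ℝ) < 4 ^ M := by positivity
    by_contra hcon
    push Not at hcon
    nlinarith
  linarith [hM.1]

/-- **Main theorem.** There is a perfect set `E ⊂ ℝ` containing all finite patterns such that no
nonzero finite measure supported on `E` has a decaying Fourier transform. -/
theorem result : ∃ E : Set ℝ, Perfect E ∧
    (∀ F : Set ℝ, F.Finite → ∃ a b : ℝ, b ≠ 0 ∧ (fun x => a + b * x) '' F ⊆ E) ∧
    ∀ μ : Measure ℝ, IsFiniteMeasure μ → μ ≠ 0 → μ.support ⊆ E →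
      ¬ Tendsto (fun ξ : ℝ => ∫ x, Complex.exp (-(2 * π * x * ξ : ℝ) * Complex.I) ∂μ)
        (cocompact ℝ) (𝓝 0) := by
  refine ⟨theSet, perfect_theSet, ?_, ?_⟩
  · intro F hF
    obtain ⟨a, b, hb, h⟩ := pattern hF.toFinset
    refine ⟨a, b, hb, ?_⟩
    rintro _ ⟨x, hx, rfl⟩
    exact h x (hF.mem_toFinset.2 hx)
  · intro μ hfin hne hsupp hdecay
    have hE : μ theSetᶜ = 0 := by
      apply nonpos_iff_eq_zero.1
      calc μ theSetᶜ ≤ μ μ.supportᶜ := measure_mono (compl_subset_compl.2 hsupp)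
        _ = 0 := Measure.measure_compl_support
    obtain ⟨n, hn⟩ : ∃ n : ℕ, μ (piece (n + 5)) ≠ 0 := by
      by_contra hcon
      push Not at hcon
      apply hne
      rw [← Measure.measure_univ_eq_zero]
      have h1 : μ theSet = 0 := measure_iUnion_null hcon
      rw [← union_compl_self theSet]
      exact measure_union_null h1 hE
    set N := n + 5 with hN
    have hN5 : 5 ≤ N := by omega
    obtain ⟨g, φ, hg, hgc, hφ, hφ1, hφ0⟩ := exists_cutoff (2 * (N : ℝ) + 1 / 2)
    have hmeas : MeasurableSet (piece N) := (isClosed_piece hN5).measurableSet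
    -- φ = indicator almost everywhere
    have hind : ∀ᵐ x ∂μ, ∀ w : ℂ, φ x * w = (piece N).indicator (fun _ => w) x := by
      have h1 : ∀ᵐ x ∂μ, x ∈ theSet := by
        rw [ae_iff]
        exact hE
      filter_upwards [h1] with x hx w
      by_cases hxN : x ∈ piece N
      · rw [indicator_of_mem hxN, hφ1, one_mul]
        have := ctop_lt_one hN5
        rw [abs_le]
        constructor <;> linarith [hxN.1, hxN.2.1]
      · rw [indicator_of_notMem hxN, hφ0, zero_mul]
        obtain ⟨n', hn'⟩ := mem_iUnion.1 hx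
        have hne' : n' + 5 ≠ N := fun h => hxN (h ▸ hn')
        have hc' := ctop_lt_one (show 5 ≤ n' + 5 by omega)
        rcases lt_or_gt_of_ne hne' with hlt | hgt
        · have h2 : ((n' + 5 : ℕ) : ℝ) + 1 ≤ N := by exact_mod_cast hlt
          rw [le_abs]
          right
          have := hn'.2.1
          linarith
        · have h2 : (N : ℝ) + 1 ≤ ((n' + 5 : ℕ) : ℝ) := by exact_mod_cast hgt
          rw [le_abs]
          left
          have := hn'.1
          linarith
    have hν : ∀ᵐ x ∂(μ.restrict (piece N)), x ∈ piece N := ae_restrict_mem hmeas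
    have hν0 : μ.restrict (piece N) ≠ 0 := by
      rw [Ne, Measure.restrict_eq_zero]
      exact hn
    apply no_decay hN5 (μ.restrict (piece N)) hν hν0
    intro j hj
    have hNr : (5 : ℝ) ≤ N := by exact_mod_cast hN5
    have hs : Tendsto (fun k : ℕ => -(j : ℝ) * (N : ℝ) ^ k) atTop (cocompact ℝ) := by
      rw [← Metric.cobounded_eq_cocompact, ← tendsto_norm_atTop_iff_cobounded]
      have e : ∀ k : ℕ, ‖-(j : ℝ) * (N : ℝ) ^ k‖ = |(j : ℝ)| * (N : ℝ) ^ k := by
        intro k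
        rw [norm_mul, norm_neg, Real.norm_eq_abs, Real.norm_eq_abs,
          abs_of_pos (by positivity : (0 : ℝ) < (N : ℝ) ^ k)]
      simp_rw [e]
      apply Tendsto.const_mul_atTop
      · have : (j : ℝ) ≠ 0 := by exact_mod_cast hj
        positivity
      · exact tendsto_pow_atTop_atTop_of_one_lt (by linarith)
    have h1 := cutoff_decay μ hdecay g φ hg hgc hφ _ hs
    refine h1.congr ?_
    intro k
    rw [← integral_indicator hmeas]
    apply integral_congr_ae
    filter_upwards [hind] with x hx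
    rw [hx]
    by_cases hxN : x ∈ piece N
    · rw [indicator_of_mem hxN, indicator_of_mem hxN]
      congr 2
      push_cast
      ring
    · rw [indicator_of_notMem hxN, indicator_of_notMem hxN]

end Pool.Agent.Results.MP_701998_an.NoRajchmanMeasure
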